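import Pool.Agent.V8H51.TN.Defs
import Pool.Agent.V8H51.TW.Cover

/-!
# The blocks of a nondeterministic circuit whose boundary words are fixed
-/

set_option autoImplicit false

open Finset

namespace Pool.Agent.V8H51.TN

open Pool.Agent.H554R2.Sem Pool.Agent.H554R2.Lin Pool.Agent.V8H51.TW

variable {n : ℕ} {α γ : Type}

theorem splice_key {r : ℕ} (C : Circ (Fin n) α) (gr : Fin C.size → Fin r)
    (E : Finset (Fin C.size)) (β : E → α) (s : ℕ)
    (hE : ∀ g a, C.src g a ∈ E ∨ gr (C.src g a) = gr g)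
    (X : Fin r → Pt n) (hX : ∀ j, X j ∈ kset C gr E β s) (z : Pt n)
    (hz : ∀ j, ∀ i ∈ rd C gr j (X j), z i = X j i) :
    ∀ g, C.val z g = C.val (X (gr g)) g ∧ C.read z g = C.read (X (gr g)) g ∧
      (∀ a, C.val z (C.src g a) = C.val (X (gr g)) (C.src g a)) ∧
      (C.read z g).map z = (C.read (X (gr g)) g).map (X (gr g)) := by
  have key : ∀ g, C.val z g = C.val (X (gr g)) g ∧ C.read z g = C.read (X (gr g)) g ∧
      (∀ a, C.val z (C.src g a) = C.val (X (gr g)) (C.src g a)) := by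
    intro g
    induction g using WellFoundedLT.induction with
    | ind g ih =>
      have h0 : ∀ a, C.val z (C.src g a) = C.val (X (gr g)) (C.src g a) := by
        intro a
        rw [(ih _ (C.acyclic g a)).1]
        rcases hE g a with h | h
        · rw [(mem_kset.1 (hX (gr (C.src g a)))).2.1 ⟨_, h⟩,
            (mem_kset.1 (hX (gr g))).2.1 ⟨_, h⟩]
        · rw [h]
      have h1 : (fun a => C.val z (C.src g a)) = fun a => C.val (X (gr g)) (C.src g a) :=
        funext h0
      have h2 := DTree.splice (x := X (gr g)) (z := z)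
        (C.op g (fun a => C.val (X (gr g)) (C.src g a)))
        (fun v h3 => hz (gr g) v (mem_rd.2 ⟨g, rfl, h3⟩))
      unfold Circ.read
      rw [C.val_eq z g, C.val_eq (X (gr g)) g, h1]
      exact ⟨h2.1, h2.2, h0⟩
  intro g
  refine ⟨(key g).1, (key g).2.1, (key g).2.2, ?_⟩
  rw [(key g).2.1]
  exact List.map_congr_left (fun v hv => hz (gr g) v (mem_rd.2 ⟨g, rfl, hv⟩))

/-- the guesses `y` fit -/
def Fit (C : NCirc (Fin n) α γ) (E : Finset (Fin C.size)) (δ : E → γ) (x : Pt n)
    (y : Fin C.size → γ) : Prop :=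
  (∀ v : E, y v.1 = δ v) ∧ ∀ g, C.chk g (fun a => C.val x (C.src g a))
    ((C.read x g).map x) (fun a => y (C.src g a)) (y g)

open Classical in
/-- accepted inputs with given boundary words and guesses, and few reads in each group -/
noncomputable def nset {r : ℕ} (C : NCirc (Fin n) α γ) (gr : Fin C.size → Fin r)
    (E : Finset (Fin C.size)) (β : E → α) (δ : E → γ) (s : ℕ) : Finset (Pt n) :=
  univ.filter (fun x => x ∈ kset C.toCirc gr E β s ∧ ∃ y, Fit C E δ x y)

theorem mem_nset {r : ℕ} {C : NCirc (Fin n) α γ} {gr : Fin C.size → Fin r}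
    {E : Finset (Fin C.size)} {β : E → α} {δ : E → γ} {s : ℕ} {x : Pt n} :
    x ∈ nset C gr E β δ s ↔ x ∈ kset C.toCirc gr E β s ∧ ∃ y, Fit C E δ x y := by
  unfold nset
  simp only [mem_filter, mem_univ, true_and]

/-- The blocks. -/
noncomputable def toBlkN {r : ℕ} (C : NCirc (Fin n) α γ) (gr : Fin C.size → Fin r)
    (E : Finset (Fin C.size)) (β : E → α) (δ : E → γ) (s : ℕ)
    (hE : ∀ g a, C.src g a ∈ E ∨ gr (C.src g a) = gr g) : Blk n r s where
  K := nset C gr E β δ s
  Rd := fun c x => rd C.toCirc gr c x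
  size := fun x hx j => (toBlk C.toCirc gr E β s hE).size x (mem_nset.1 hx).1 j
  det := fun x hx y hy j h =>
    (toBlk C.toCirc gr E β s hE).det x (mem_nset.1 hx).1 y (mem_nset.1 hy).1 j h
  splice := by
    classical
    intro X hX z hz
    have hX1 : ∀ j, X j ∈ kset C.toCirc gr E β s := fun j => (mem_nset.1 (hX j)).1
    obtain ⟨h1, h2⟩ := (toBlk C.toCirc gr E β s hE).splice X hX1 z hz
    have key := splice_key C.toCirc gr E β s hE X hX1 z hz
    choose Y hY using fun j => (mem_nset.1 (hX j)).2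
    refine ⟨mem_nset.2 ⟨h1, fun g => if h : g ∈ E then δ ⟨g, h⟩ else Y (gr g) g, ?_, ?_⟩, h2⟩
    · intro v
      simp only [v.2, dif_pos]
    · intro g
      have h3 := (hY (gr g)).2 g
      have h4 : (fun a => C.val z (C.src g a)) = fun a => C.val (X (gr g)) (C.src g a) :=
        funext (key g).2.2.1
      have h5 : ∀ g', (g' ∈ E ∨ gr g' = gr g) →
          (if h : g' ∈ E then δ ⟨g', h⟩ else Y (gr g') g') = Y (gr g) g' := by
        intro g' h6
        by_cases h7 : g' ∈ E
        · rw [dif_pos h7]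
          exact ((hY (gr g)).1 ⟨g', h7⟩).symm
        · rw [dif_neg h7]
          rcases h6 with h6 | h6
          · exact absurd h6 h7
          · rw [h6]
      have h8 : (fun a => if h : C.src g a ∈ E then δ ⟨C.src g a, h⟩
          else Y (gr (C.src g a)) (C.src g a)) = fun a => Y (gr g) (C.src g a) :=
        funext (fun a => h5 _ (hE g a))
      rw [h4, (key g).2.2.2, h8]
      beta_reduce
      rw [h5 g (Or.inr rfl)]
      exact h3

theorem coverN [Fintype α] [Fintype γ] (C : NCirc (Fin n) α γ) {t w : ℕ} (ht : C.StrongLE t)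
    (hα : Fintype.card α * Fintype.card γ ≤ 2 ^ w) (ρ s W : ℕ) (hs : 0 < s)
    (hW : W < (ρ + 1) * s)
    (G : Finset (Pt n)) (hG : ∀ x ∈ G, C.Accepts x ∧ nreads C.toCirc x ≤ W ∧
      ∀ g, (C.read x g).length ≤ s) :
    ∃ B : Blk n (ρ + 1) (2 * s), G.card ≤ ((C.size + 1) ^ ρ * (2 * C.size + 1) ^ ρ *
      2 ^ (w * (ρ * (t + 1)))) * B.K.card ∧ ∀ x ∈ B.K, C.Accepts x := by
  classical
  rcases G.eq_empty_or_nonempty with hG0 | ⟨x0, hx0⟩
  · refine ⟨⟨∅, fun _ _ => ∅, fun x hx => absurd hx (notMem_empty x),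
      fun x hx => absurd hx (notMem_empty x), fun X hX => absurd (hX 0) (notMem_empty _)⟩, ?_,
      fun x hx => absurd hx (notMem_empty x)⟩
    rw [hG0]
    simp
  have hneγ : Nonempty γ := by
    obtain ⟨y, _⟩ := (hG x0 hx0).1.2
    exact ⟨y C.out⟩
  obtain ⟨par, bag, hpar, hbag, hempty, hroot, hcov⟩ := ht
  choose node hnode1 hnode2 using hcov
  have hnode : ∀ g, node g < C.size := by
    intro g
    by_contra h
    push Not at h
    have := hnode1 g
    rw [hempty _ h] at this
    simp at this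
  have hE : ∀ (z : Fin ρ → Fin (C.size + 1)) (τ : Fin ρ → Fin (2 * C.size + 1)) g a,
      C.src g a ∈ ebd bag z ∨ (fun g => grp τ (piece par node (zset z) g)) (C.src g a) =
        (fun g => grp τ (piece par node (zset z) g)) g := by
    intro z τ g a
    by_cases h : C.src g a ∈ ebd bag z
    · exact Or.inl h
    · right
      show grp τ (piece par node (zset z) (C.src g a)) = grp τ (piece par node (zset z) g)
      rw [piece_eq h hpar hroot (hnode2 g a) (hnode1 _)]
  -- first step
  obtain ⟨⟨z, τ⟩, h1⟩ := pigeon (I := (Fin ρ → Fin (C.size + 1)) × (Fin ρ → Fin (2 * C.size + 1)))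
    G (fun q => G.filter (fun x => ∀ c,
      (rd C.toCirc (fun g => grp q.2 (piece par node (zset q.1) g)) c x).card ≤ 2 * s)) (by
      intro x hx
      obtain ⟨z, τ, h⟩ := cover_one C.toCirc hpar hnode ρ s W hs hW x (hG x hx).2.1 (hG x hx).2.2
      exact ⟨(z, τ), mem_filter.2 ⟨hx, h⟩⟩)
  simp only at h1
  have hne : Nonempty α := ⟨C.val (fun _ => true) C.out⟩
  obtain ⟨⟨β, δ⟩, h2⟩ := pigeon (I := ((ebd bag z) → α) × ((ebd bag z) → γ))
    (G.filter (fun x => ∀ c,
      (rd C.toCirc (fun g => grp τ (piece par node (zset z) g)) c x).card ≤ 2 * s))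
    (fun q => nset C (fun g => grp τ (piece par node (zset z) g)) (ebd bag z) q.1 q.2 (2 * s))
    (by
      intro x hx
      obtain ⟨h3, h4⟩ := mem_filter.1 hx
      obtain ⟨h5, y, hy⟩ := (hG x h3).1
      exact ⟨(fun v => C.val x v.1, fun v => y v.1), mem_nset.2
        ⟨mem_kset.2 ⟨h5, fun _ => rfl, h4⟩, y, fun _ => rfl, hy⟩⟩)
  simp only at h2
  refine ⟨toBlkN C (fun g => grp τ (piece par node (zset z) g)) (ebd bag z) β δ (2 * s) (hE z τ),
    ?_, fun x hx => ?_⟩
  · refine h1.trans ?_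
    rw [Fintype.card_prod, Fintype.card_fun, Fintype.card_fun, Fintype.card_fin, Fintype.card_fin,
      Fintype.card_fin, mul_assoc ((C.size + 1) ^ ρ * (2 * C.size + 1) ^ ρ)]
    refine Nat.mul_le_mul_left _ (h2.trans (Nat.mul_le_mul_right _ ?_))
    rw [Fintype.card_prod, Fintype.card_fun, Fintype.card_fun, Fintype.card_coe, ← mul_pow]
    have h3 : (ebd bag z).card ≤ ρ * (t + 1) := by
      unfold ebd
      refine card_biUnion_le.trans ?_
      calc ∑ j : Fin ρ, (bag (z j)).card ≤ ∑ _j : Fin ρ, (t + 1) := sum_le_sum (fun j _ => hbag _)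
        _ = ρ * (t + 1) := by rw [sum_const, card_univ, Fintype.card_fin, smul_eq_mul]
    calc (Fintype.card α * Fintype.card γ) ^ (ebd bag z).card ≤ (2 ^ w) ^ (ebd bag z).card :=
          Nat.pow_le_pow_left hα _
      _ ≤ (2 ^ w) ^ (ρ * (t + 1)) := Nat.pow_le_pow_right (by positivity) h3
      _ = 2 ^ (w * (ρ * (t + 1))) := by rw [← pow_mul]
  · obtain ⟨h3, y, _, hy⟩ := mem_nset.1 hx
    exact ⟨(mem_kset.1 h3).1, y, hy⟩

end Pool.Agent.V8H51.TN
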