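import Pool.Agent.V8H51.TW.Defs

/-!
# Nondeterministic circuits whose gates are decision trees: definitions
-/

set_option autoImplicit false

namespace Pool.Agent.V8H51.TN

open Pool.Agent.V8H51.TW

/-- A nondeterministic circuit: a circuit in which each gate also guesses an element of `γ`, which
is sent along the same wires, and makes a check: `chk g u l c e` says that the gate `g` is content
with the words `u` received, the values `l` of the input bits read by `g`, the guesses `c` received
and its own guess `e`. (Which bits are read does not depend on the guesses.) -/
structure NCirc (V α γ : Type) extends Circ V α where
  /-- the checks -/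
  chk : (g : Fin size) → (Fin (arity g) → α) → List Bool → (Fin (arity g) → γ) → γ → Prop

/-- The input is accepted: the word computed by the output gate is accepting, and for some
guesses all gates are content. -/
def NCirc.Accepts {V α γ : Type} (C : NCirc V α γ) (x : V → Bool) : Prop :=
  C.toCirc.Accepts x ∧ ∃ y : Fin C.size → γ, ∀ g, C.chk g (fun a => C.val x (C.src g a))
    ((C.read x g).map x) (fun a => y (C.src g a)) (y g)

end Pool.Agent.V8H51.TN
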