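import Pool.Agent.V8H51.TN.CnfN
import Pool.Agent.V8H51.TW.SatT

/-!
# 3-SAT is hard for nondeterministic circuits of small treewidth
-/

set_option autoImplicit false

open Finset

namespace Pool.Agent.V8H51.TN

open Pool.Agent.H554R2.Sem Pool.Agent.H554R2.Coin Pool.Agent.H554R2.Cnf Pool.Agent.H538R4.SP
open Pool.Agent.V8H51.TW
open Pool.Agent.V8H51.RS (idx_none idx_some' averageR)

section

variable {V α γ : Type} {n : ℕ}

/-- the values of all bits read, given the values of the bits in the range of `p` -/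
noncomputable def fill (p : Fin n → V) (b : V → Bool) : DTree V α → List Bool → List Bool
  | .leaf _, _ => []
  | .ask v f, l => (idx p v).elim (b v :: fill p b (f (b v)) l)
      (fun _ => match l with
        | [] => []
        | β :: l' => β :: fill p b (f β) l')

theorem fill_eq {p : Fin n → V} (hp : Function.Injective p) (b : V → Bool) (x : Pt n)
    (T : DTree V α) : fill p b T (((fixD p b T).reads x).map x) =
      (T.reads (plug p b x)).map (plug p b x) := by
  induction T with
  | leaf u => rfl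
  | ask v f ih =>
    cases h4 : idx p v with
    | none =>
      have h5 : plug p b x v = b v := plug_other p b x v (idx_none h4)
      have h6 : fixD p b (DTree.ask v f) = fixD p b (f (b v)) := by
        rw [fixD, h4]
        rfl
      rw [h6, DTree.reads, List.map_cons, h5]
      have h7 : ∀ l, fill p b (DTree.ask v f) l = b v :: fill p b (f (b v)) l := by
        intro l
        rw [fill.eq_def]
        simp only [h4, Option.elim_none]
      rw [h7, ih (b v)]
    | some i =>
      have h5 : plug p b x v = x i := by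
        rw [← idx_some' h4, plug_apply p hp b x i]
      have h6 : fixD p b (DTree.ask v f) = DTree.ask i (fun β => fixD p b (f β)) := by
        rw [fixD, h4]
        rfl
      rw [h6, DTree.reads, DTree.reads, List.map_cons, List.map_cons, h5]
      have h7 : ∀ β l, fill p b (DTree.ask v f) (β :: l) = β :: fill p b (f β) l := by
        intro β l
        rw [fill.eq_def]
        simp only [h4, Option.elim_some]
      rw [h7, ih (x i)]

/-- The circuit in which the input bits outside the range of `p` have the values given by `b`. -/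
noncomputable def fixN (p : Fin n → V) (b : V → Bool) (C : NCirc V α γ) : NCirc (Fin n) α γ where
  toCirc := fixT p b C.toCirc
  chk := fun g u l c e => C.chk g u (fill p b (C.op g u) l) c e

theorem fixN_accepts {p : Fin n → V} (hp : Function.Injective p) (b : V → Bool)
    (C : NCirc V α γ) (x : Pt n) : (fixN p b C).Accepts x ↔ C.Accepts (plug p b x) := by
  have h1 : (fixT p b C.toCirc).Accepts x ↔ C.toCirc.Accepts (plug p b x) := by
    unfold Circ.Accepts
    show C.acc ((fixT p b C.toCirc).val x C.out) ↔ _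
    rw [fixT_val hp b C.toCirc x C.out]
  unfold NCirc.Accepts
  refine and_congr h1 (exists_congr (fun y => forall_congr' (fun g => ?_)))
  have h2 : (fun a => (fixT p b C.toCirc).val x (C.src g a)) =
      fun a => C.val (plug p b x) (C.src g a) :=
    funext (fun a => fixT_val hp b C.toCirc x (C.src g a))
  have h3 : (fixT p b C.toCirc).read x g =
      (fixD p b (C.op g (fun a => C.val (plug p b x) (C.src g a)))).reads x := by
    show (fixD p b (C.op g (fun a => (fixT p b C.toCirc).val x (C.src g a)))).reads x = _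
    rw [h2]
  show C.chk g (fun a => (fixT p b C.toCirc).val x (C.src g a))
    (fill p b (C.op g (fun a => (fixT p b C.toCirc).val x (C.src g a)))
      (((fixT p b C.toCirc).read x g).map x)) (fun a => y (C.src g a)) (y g) ↔ _
  rw [h2, h3, fill_eq hp b x]
  rfl

end

theorem genN (k : ℕ) : ∃ D : ℕ, 0 < D ∧ ∀ (V : Type) [BEq V] [LawfulBEq V]
    (Sol : (V → Bool) → Prop) (n : ℕ) (p : Fin n → V), Function.Injective p →
    (∀ F : Finset (Finset (Fin n × Bool)), (∀ c ∈ F, c.card ≤ D) → F.card ≤ D * n →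
      ∃ b : V → Bool, ∀ x : Pt n, Sol (plug p b x) ↔ Models F x) →
    D ≤ n → ∃ b : V → Bool, ∀ (α γ : Type) [Fintype α] [Fintype γ] (C : NCirc V α γ) (t w : ℕ),
      C.StrongLE t → Fintype.card α * Fintype.card γ ≤ 2 ^ w → C.size < 2 ^ (n / D) →
      w * (t + 1) ≤ n / D →
      (∀ x : Pt n, C.Accepts (plug p b x) → Sol (plug p b x)) →
      2 ^ (n / D) * Nat.card {x : Pt n // C.Accepts (plug p b x) ∧
        ∑ g, ∑ i, (C.read (plug p b x) g).count (p i) ≤ k * n ∧
        ∀ g, ∑ i, (C.read (plug p b x) g).count (p i) ≤ n / D} <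
        Nat.card {x : Pt n // Sol (plug p b x)} := by
  classical
  obtain ⟨D, hD, h⟩ := final_cnfN k
  refine ⟨D, hD, fun V _ _ Sol n p hp hred hn => ?_⟩
  obtain ⟨F, hF1, hF2, hF3⟩ := h n hn
  obtain ⟨b, hx⟩ := hred F hF2 hF1
  refine ⟨b, fun α γ _ _ C t w ht hα hs hw hP => ?_⟩
  have hacc := fixN_accepts hp b C
  have h1 := hF3 α γ (fixN p b C) t w ht hα hs hw (by
    intro x hx'
    rw [← hx x]
    exact hP x ((hacc x).1 hx'))
  have e3 : Nat.card {x : Pt n // Models F x} = Nat.card {x : Pt n // Sol (plug p b x)} :=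
    Nat.card_congr (Equiv.subtypeEquivRight (fun x => (hx x).symm))
  have e5 : ∀ x, nreads (fixN p b C).toCirc x =
      ∑ g, ∑ i, (C.read (plug p b x) g).count (p i) := by
    intro x
    unfold nreads
    exact Finset.sum_congr rfl (fun g _ => fixT_length hp b C.toCirc x g)
  have e4 : Nat.card {x : Pt n // (fixN p b C).Accepts x ∧
        nreads (fixN p b C).toCirc x ≤ k * n ∧
        ∀ g, ((fixN p b C).read x g).length ≤ n / D} =
      Nat.card {x : Pt n // C.Accepts (plug p b x) ∧
        ∑ g, ∑ i, (C.read (plug p b x) g).count (p i) ≤ k * n ∧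
        ∀ g, ∑ i, (C.read (plug p b x) g).count (p i) ≤ n / D} :=
    Nat.card_congr (Equiv.subtypeEquivRight (fun x => by
      rw [hacc x, e5 x]
      refine and_congr_right (fun _ => and_congr_right (fun _ => forall_congr' (fun g => ?_)))
      show ((fixT p b C.toCirc).read x g).length ≤ n / D ↔ _
      rw [fixT_length hp b C.toCirc x g]))
  rw [← e3, ← e4]
  exact h1

theorem finalN (k : ℕ) : ∃ D : ℕ, 0 < D ∧ ∀ (n M ℓ : ℕ) (a : Fin n ↪ Fin M), D * n ≤ M →
    D * n ≤ 2 ^ ℓ → ∃ b : Idx M ℓ → Bool, ∀ (t w d : ℕ) (R : Type) [Fintype R] [Nonempty R]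
      (α γ : Type) [Fintype α] [Fintype γ] (U : R → NCirc (Idx M ℓ) α γ),
      Fintype.card α * Fintype.card γ ≤ 2 ^ w → (∀ r, (U r).TreewidthLE t) →
      (∀ r g, (U r).arity g ≤ d) →
      (∀ r (x : Pt n), (U r).Accepts (plug (fun i => sgn ℓ (a i)) b x) →
        Sat3 (plug (fun i => sgn ℓ (a i)) b x)) →
      Nat.card R * Nat.card {x : Pt n // Sat3 (plug (fun i => sgn ℓ (a i)) b x)} ≤ 2 ^ (n / D) *
        Nat.card {u : R × Pt n // (U u.1).Accepts (plug (fun i => sgn ℓ (a i)) b u.2) ∧
          ∑ g, ∑ i, ((U u.1).read (plug (fun i => sgn ℓ (a i)) b u.2) g).count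
            (sgn ℓ (a i)) ≤ k * n ∧
          ∀ g, ∑ i, ((U u.1).read (plug (fun i => sgn ℓ (a i)) b u.2) g).count
            (sgn ℓ (a i)) ≤ n / D} →
      n / D ≤ w * ((d + 1) * (t + 1)) ∨ ∃ r, 2 ^ (n / D) ≤ (U r).size := by
  obtain ⟨D1, hD1, h1⟩ := genN k
  refine ⟨(2 * D1 + 2) * (2 * D1 + 2), by positivity, fun n M ℓ a hM hℓ => ?_⟩
  set D := (2 * D1 + 2) * (2 * D1 + 2) with hD
  have hD1D : 2 * D1 ≤ D := by rw [hD]; nlinarith
  rcases Nat.eq_zero_or_pos (n / D) with h0 | hpos
  · rw [h0]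
    exact ⟨fun _ => true, fun t w d R _ _ α γ _ _ U _ _ _ _ _ => Or.inl (Nat.zero_le _)⟩
  have hn0 : 0 < n := by
    rcases Nat.eq_zero_or_pos n with h | h
    · rw [h] at hpos
      simp at hpos
    · exact h
  have hp : Function.Injective (fun i => (sgn ℓ (a i) : Idx M ℓ)) :=
    fun i j h => a.injective (sgn_inj h)
  have hq : n / D + 1 ≤ n / D1 := by
    have h2 : n / D ≤ n / (2 * D1) := Nat.div_le_div_left hD1D (by omega)
    have h3 : 2 * (n / (2 * D1)) ≤ n / D1 := by
      rw [Nat.le_div_iff_mul_le hD1]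
      calc 2 * (n / (2 * D1)) * D1 = 2 * D1 * (n / (2 * D1)) := by ring
        _ ≤ n := Nat.mul_div_le n _
    omega
  have hn1 : D1 ≤ n := by
    by_contra h
    push Not at h
    rw [Nat.div_eq_of_lt h] at hq
    omega
  obtain ⟨b, hb⟩ := h1 (Idx M ℓ) Sat3 n _ hp (fun F hF hFc => by
      have h3 : n + 1 + (D1 + 1) * F.card ≤ D * n := by
        have h4 : (D1 + 1) * F.card ≤ (D1 + 1) * (D1 * n) :=
          Nat.mul_le_mul_left _ hFc
        have h5 : D * n = (D1 + 1) * (D1 * n) + (3 * D1 ^ 2 + 7 * D1 + 4) * n := by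
          rw [hD]; ring
        have h6 : n + 1 ≤ (3 * D1 ^ 2 + 7 * D1 + 4) * n := by nlinarith
        omega
      exact reduction_set F hF (h3.trans hM) (h3.trans hℓ) a a.injective) hn1
  refine ⟨b, fun t w d R _ _ α γ _ _ U hα ht hd hU hl => ?_⟩
  obtain ⟨r, hr⟩ := averageR
    (fun r (x : Pt n) => (U r).Accepts (plug (fun i => sgn ℓ (a i)) b x) ∧
          ∑ g, ∑ i, ((U r).read (plug (fun i => sgn ℓ (a i)) b x) g).count
            (sgn ℓ (a i)) ≤ k * n ∧
          ∀ g, ∑ i, ((U r).read (plug (fun i => sgn ℓ (a i)) b x) g).count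
            (sgn ℓ (a i)) ≤ n / D) (n / D) _ hl
  by_contra hc
  push Not at hc
  have h7 : 2 ^ (n / D) ≤ 2 ^ (n / D1) := Nat.pow_le_pow_right (by norm_num) (by omega)
  have hone : 1 ≤ (d + 1) * (t + 1) := Nat.mul_pos (Nat.succ_pos _) (Nat.succ_pos _)
  have h5 := hb α γ (U r) _ w (strong_of_treewidth (U r).toCirc (hd r) (ht r)) hα
    (lt_of_lt_of_le (hc.2 r) h7) (by rw [Nat.sub_add_cancel hone]; omega) (hU r)
  have h8 : Nat.card {x : Pt n // (U r).Accepts (plug (fun i => sgn ℓ (a i)) b x) ∧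
          ∑ g, ∑ i, ((U r).read (plug (fun i => sgn ℓ (a i)) b x) g).count
            (sgn ℓ (a i)) ≤ k * n ∧
          ∀ g, ∑ i, ((U r).read (plug (fun i => sgn ℓ (a i)) b x) g).count
            (sgn ℓ (a i)) ≤ n / D} ≤
      Nat.card {x : Pt n // (U r).Accepts (plug (fun i => sgn ℓ (a i)) b x) ∧
          ∑ g, ∑ i, ((U r).read (plug (fun i => sgn ℓ (a i)) b x) g).count
            (sgn ℓ (a i)) ≤ k * n ∧
          ∀ g, ∑ i, ((U r).read (plug (fun i => sgn ℓ (a i)) b x) g).count
            (sgn ℓ (a i)) ≤ n / D1} := by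
    refine Nat.card_le_card_of_injective (fun y => ⟨y.1, y.2.1, y.2.2.1, fun g => ?_⟩) ?_
    · exact (y.2.2.2 g).trans (by omega)
    · intro y z hyz
      exact Subtype.ext (by simpa using hyz)
  exact absurd (hr.trans (Nat.mul_le_mul h7 h8)) (not_le.2 h5)

end Pool.Agent.V8H51.TN
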