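import Pool.Agent.V8H51.TN.Gap
import Pool.Agent.V8H51.TN.SatN
import Pool.Agent.V8H51.RG.Red

/-!
# Gap 3-SAT is hard for nondeterministic circuits of small treewidth
-/

set_option autoImplicit false

open Finset

namespace Pool.Agent.V8H51.TN

open Pool.Agent.H554R2.Sem Pool.Agent.H554R2.Cnf Pool.Agent.H538R4.SP Pool.Agent.V8H51.TW
open Pool.Agent.V8H51.RG
open Pool.Agent.V8H51.RS (averageR)

theorem finalNG (k : ℕ) : ∃ D : ℕ, 0 < D ∧ ∀ (n M ℓ : ℕ) (a : Fin n ↪ Fin M), D * n ≤ M →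
    D * n ≤ 2 ^ ℓ → ∃ b : Idx M ℓ → Bool, ∀ (t w d : ℕ) (R : Type) [Fintype R] [Nonempty R]
      (α γ : Type) [Fintype α] [Fintype γ] (U : R → NCirc (Idx M ℓ) α γ),
      Fintype.card α * Fintype.card γ ≤ 2 ^ w → (∀ r, (U r).TreewidthLE t) →
      (∀ r g, (U r).arity g ≤ d) →
      (∀ r (x : Pt n), (U r).Accepts (plug (fun i => sgn ℓ (a i)) b x) →
        ¬ Far (n / D) (plug (fun i => sgn ℓ (a i)) b x)) →
      Nat.card R * Nat.card {x : Pt n // Sat3 (plug (fun i => sgn ℓ (a i)) b x)} ≤ 2 ^ (n / D) *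
        Nat.card {u : R × Pt n // Sat3 (plug (fun i => sgn ℓ (a i)) b u.2) ∧
          (U u.1).Accepts (plug (fun i => sgn ℓ (a i)) b u.2) ∧
          ∑ g, ∑ i, ((U u.1).read (plug (fun i => sgn ℓ (a i)) b u.2) g).count
            (sgn ℓ (a i)) ≤ k * n ∧
          ∀ g, ∑ i, ((U u.1).read (plug (fun i => sgn ℓ (a i)) b u.2) g).count
            (sgn ℓ (a i)) ≤ n / D} →
      n / D ≤ w * ((d + 1) * (t + 1)) ∨ ∃ r, 2 ^ (n / D) ≤ (U r).size := by
  classical
  obtain ⟨D1, K, hD1, hK, h1⟩ := final_gapN k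
  refine ⟨2 * D1 + D1 * K + 2, by omega, fun n M ℓ a hM hℓ => ?_⟩
  set D := 2 * D1 + D1 * K + 2 with hD
  rcases Nat.eq_zero_or_pos (n / D) with h0 | hpos
  · rw [h0]
    exact ⟨fun _ => true, fun t w d R _ _ α γ _ _ U _ _ _ _ _ => Or.inl (Nat.zero_le _)⟩
  have hnD : D ≤ n := by
    by_contra hlt
    push Not at hlt
    rw [Nat.div_eq_of_lt hlt] at hpos
    omega
  obtain ⟨J, h, w₂, T, hT1, hT2, hT3, hT4, hT5⟩ := h1 n (by omega)
  have hsz : n + (n + J * K) ≤ D * n := by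
    have h2 : J * K ≤ D1 * n * K := Nat.mul_le_mul_right _ hT1
    have h3 : D * n = 2 * D1 * n + D1 * n * K + 2 * n := by rw [hD]; ring
    omega
  obtain ⟨b, hb⟩ := redG T hK (hsz.trans hM) (hsz.trans hℓ) a
  refine ⟨b, fun t w d R _ _ α γ _ _ U hα ht hd hU hl => ?_⟩
  have hp : Function.Injective (fun i => (sgn ℓ (a i) : Idx M ℓ)) :=
    fun i j h => a.injective (sgn_inj h)
  have hq1 : n / D ≤ n / (2 * D1) := Nat.div_le_div_left (by omega) (by omega)
  have hq : n / D + 1 ≤ n / D1 := by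
    have h3 : 2 * (n / (2 * D1)) ≤ n / D1 := by
      rw [Nat.le_div_iff_mul_le hD1]
      calc 2 * (n / (2 * D1)) * D1 = 2 * D1 * (n / (2 * D1)) := by ring
        _ ≤ n := Nat.mul_div_le n _
    omega
  have hgap : n / D ≤ min (w₂ + 1) h := by
    have h2 : n / D ≤ n / D1 := by omega
    have h3 : n / D1 ≤ h := Nat.div_le_of_le_mul hT2
    have h4 : n / D1 ≤ w₂ + 1 := Nat.div_le_of_le_mul hT3
    exact le_min (by omega) (by omega)
  obtain ⟨r, hr⟩ := averageR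
    (fun r (x : Pt n) => Sat3 (plug (fun i => sgn ℓ (a i)) b x) ∧
      (U r).Accepts (plug (fun i => sgn ℓ (a i)) b x) ∧
          ∑ g, ∑ i, ((U r).read (plug (fun i => sgn ℓ (a i)) b x) g).count
            (sgn ℓ (a i)) ≤ k * n ∧
          ∀ g, ∑ i, ((U r).read (plug (fun i => sgn ℓ (a i)) b x) g).count
            (sgn ℓ (a i)) ≤ n / D) (n / D) _ hl
  by_contra hc
  push Not at hc
  have h7 : 2 ^ (n / D) ≤ 2 ^ (n / D1) := Nat.pow_le_pow_right (by norm_num) (by omega)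
  have hone : 1 ≤ (d + 1) * (t + 1) := Nat.mul_pos (Nat.succ_pos _) (Nat.succ_pos _)
  have hacc := fixN_accepts hp b (U r)
  have hlen : ∀ x g, ((fixN (fun i => sgn ℓ (a i)) b (U r)).read x g).length =
      ∑ i, ((U r).read (plug (fun i => sgn ℓ (a i)) b x) g).count (sgn ℓ (a i)) :=
    fun x g => fixT_length hp b (U r).toCirc x g
  have h5 := hT5 α γ (fixN (fun i => sgn ℓ (a i)) b (U r)) _ w
    (strong_of_treewidth (U r).toCirc (hd r) (ht r)) hα
    (lt_of_lt_of_le (hc.2 r) h7) (by rw [Nat.sub_add_cancel hone]; omega) (by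
      intro x hx1
      by_contra hx
      exact hU r x ((hacc x).1 hx1) (((hb x).2 h w₂ hT4 hx).mono hgap))
  have e1 : Nat.card {x : Pt n // Sat3 (plug (fun i => sgn ℓ (a i)) b x)} =
      Nat.card {x // x ∈ CF T} :=
    Nat.card_congr (Equiv.subtypeEquivRight (fun x => (hb x).1))
  have h6 : Nat.card {x : Pt n // Sat3 (plug (fun i => sgn ℓ (a i)) b x) ∧
      (U r).Accepts (plug (fun i => sgn ℓ (a i)) b x) ∧
          ∑ g, ∑ i, ((U r).read (plug (fun i => sgn ℓ (a i)) b x) g).count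
            (sgn ℓ (a i)) ≤ k * n ∧
          ∀ g, ∑ i, ((U r).read (plug (fun i => sgn ℓ (a i)) b x) g).count
            (sgn ℓ (a i)) ≤ n / D} ≤
      Nat.card {x // x ∈ CF T ∧ (fixN (fun i => sgn ℓ (a i)) b (U r)).Accepts x ∧
        nreads (fixN (fun i => sgn ℓ (a i)) b (U r)).toCirc x ≤ k * n ∧
        ∀ g, ((fixN (fun i => sgn ℓ (a i)) b (U r)).read x g).length ≤ n / D1} := by
    refine Nat.card_le_card_of_injective (fun y => ⟨y.1, ((hb y.1).1).1 y.2.1,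
      (hacc y.1).2 y.2.2.1, ?_, fun g => ?_⟩) ?_
    · unfold nreads
      refine le_trans (le_of_eq ?_) y.2.2.2.1
      exact Finset.sum_congr rfl (fun g _ => hlen y.1 g)
    · rw [hlen y.1 g]
      exact (y.2.2.2.2 g).trans (by omega)
    · intro y z hyz
      exact Subtype.ext (by simpa using hyz)
  rw [e1] at hr
  exact absurd (hr.trans (Nat.mul_le_mul h7 h6)) (not_le.2 h5)

end Pool.Agent.V8H51.TN
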