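import Pool.Agent.V8H51.TN.Block
import Pool.Agent.V8H51.TW.CnfT
import Pool.Agent.V8H51.RG.Gap

/-!
# Gap version for nondeterministic circuits of small treewidth
-/

set_option autoImplicit false

open Finset

namespace Pool.Agent.V8H51.TN

open Pool.Agent.H554R2.Sem Pool.Agent.H554R2.Coin Pool.Agent.H554R2.Cnf Pool.Agent.H554R2.Lin
open Pool.Agent.V8H51.TW Pool.Agent.V8H51.RG

theorem final_gapN (k : ℕ) : ∃ D K : ℕ, 0 < D ∧ 0 < K ∧ ∀ n ≥ D,
    ∃ (J h w₂ : ℕ) (T : Fin J → Fin K → Fin n × Bool), J ≤ D * n ∧ n ≤ D * h ∧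
      n ≤ D * (w₂ + 1) ∧ (∀ Y : Finset (Fin n), Y.card ≤ w₂ → touch T Y < h) ∧
      ∀ (α γ : Type) [Fintype α] [Fintype γ] (C : NCirc (Fin n) α γ) (t w : ℕ), C.StrongLE t →
        Fintype.card α * Fintype.card γ ≤ 2 ^ w → C.size < 2 ^ (n / D) → w * (t + 1) ≤ n / D →
        (∀ x, C.Accepts x → x ∈ CG (2 * h) T) →
        2 ^ (n / D) * Nat.card {x // x ∈ CF T ∧ C.Accepts x ∧ nreads C.toCirc x ≤ k * n ∧
            ∀ g, (C.read x g).length ≤ n / D} <
          Nat.card {x // x ∈ CF T} := by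
  classical
  obtain ⟨Q, r, N, hQ, hr, hN, hmain⟩ := main_rect (2 * k + 2)
  obtain ⟨ρ, rfl⟩ : ∃ ρ, r = ρ + 1 := ⟨r - 1, by omega⟩
  obtain ⟨D1, K, hD1, hK, hcnf⟩ := exists_gap Q N hQ hN
  obtain ⟨E, hE⟩ : ∃ E : ℕ, E = 4 * N * (4 * ρ + 2) := ⟨_, rfl⟩
  obtain ⟨D, hD⟩ : ∃ D : ℕ, D = D1 + E + 4 * N + 2 * Q + ρ + 2 := ⟨_, rfl⟩
  have hD0 : 0 < D := by omega
  refine ⟨D, K, hD0, hK, ?_⟩
  intro n hn
  obtain ⟨J, h, w₂, T, hT1, hT2, hT3, hCc, hCR, hT4⟩ := hcnf n (by omega)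
  refine ⟨J, h, w₂, T, hT1.trans (Nat.mul_le_mul_right _ (by omega)),
    hT2.trans (Nat.mul_le_mul_right _ (by omega)), hT3.trans (Nat.mul_le_mul_right _ (by omega)),
    hT4, ?_⟩
  intro α γ _ _ C t w ht hα hsize hw hPf
  by_contra hneg
  push Not at hneg
  obtain ⟨C', hC'⟩ : ∃ C' : Finset (Pt n), C' = CF T := ⟨_, rfl⟩
  rw [← hC'] at hneg hCc
  set G : Finset (Pt n) := C'.filter (fun x => C.Accepts x ∧ nreads C.toCirc x ≤ k * n ∧
    ∀ g, (C.read x g).length ≤ n / D) with hG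
  have hGc : Nat.card {x // x ∈ C' ∧ C.Accepts x ∧ nreads C.toCirc x ≤ k * n ∧
      ∀ g, (C.read x g).length ≤ n / D} = G.card := by
    rw [Nat.card_eq_fintype_card, Fintype.card_subtype]
    congr 1
    ext x
    simp [hG]
  have hZ : Nat.card {x : Pt n // x ∈ C'} = C'.card := by
    rw [Nat.card_eq_fintype_card, Fintype.card_coe]
  rw [hGc, hZ] at hneg
  -- blocks
  obtain ⟨s, hs⟩ : ∃ s : ℕ, s = k * n / (ρ + 1) + 1 := ⟨_, rfl⟩
  have hs1 : k * n < (ρ + 1) * s := by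
    have := Nat.lt_mul_div_succ (k * n) hr
    rw [hs]; exact this
  have hs2 : (ρ + 1) * (2 * s) ≤ (2 * k + 2) * n := by
    have h1 := Nat.mul_div_le (k * n) (ρ + 1)
    have h2 : ρ + 1 ≤ n := by omega
    rw [hs]; nlinarith
  have hs0 : 0 < s := by rw [hs]; exact Nat.succ_pos _
  obtain ⟨B, hB1, hB2⟩ := coverN C ht hα ρ s (k * n) hs0 hs1 G (by
    intro x hx
    obtain ⟨_, h1, h2, h3⟩ := Finset.mem_filter.1 hx
    refine ⟨h1, h2, fun g => ?_⟩
    rcases Nat.eq_zero_or_pos k with hk | hk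
    · have h4 : (C.read x g).length ≤ nreads C.toCirc x :=
        Finset.single_le_sum (f := fun g => (C.read x g).length) (fun _ _ => Nat.zero_le _)
          (Finset.mem_univ g)
      rw [hk, Nat.zero_mul] at h2
      omega
    · have h5 : n / D ≤ n / (ρ + 1) := Nat.div_le_div_left (by omega) (Nat.succ_pos _)
      have h6 : n / (ρ + 1) ≤ k * n / (ρ + 1) :=
        Nat.div_le_div_right (Nat.le_mul_of_pos_left n hk)
      rw [hs]
      exact (h3 g).trans ((h5.trans h6).trans (Nat.le_succ _)))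
  -- the size
  have hnD : 1 ≤ n / D := (Nat.one_le_div_iff hD0).2 hn
  have hcard : (C.size + 1) ^ ρ * (2 * C.size + 1) ^ ρ * 2 ^ (w * (ρ * (t + 1))) ≤
      2 ^ (4 * (n / D) * ρ) := by
    have h1 : C.size + 1 ≤ 2 ^ (n / D) := hsize
    have h2 : 2 * C.size + 1 ≤ 2 ^ (n / D + 1) := by
      rw [pow_succ]
      omega
    calc (C.size + 1) ^ ρ * (2 * C.size + 1) ^ ρ * 2 ^ (w * (ρ * (t + 1))) ≤
        (2 ^ (n / D)) ^ ρ * (2 ^ (n / D + 1)) ^ ρ * 2 ^ (n / D * ρ) := by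
          refine Nat.mul_le_mul (Nat.mul_le_mul (Nat.pow_le_pow_left h1 _)
            (Nat.pow_le_pow_left h2 _)) (Nat.pow_le_pow_right (by norm_num) ?_)
          calc w * (ρ * (t + 1)) = w * (t + 1) * ρ := by ring
            _ ≤ n / D * ρ := Nat.mul_le_mul_right _ hw
      _ = 2 ^ (n / D * ρ + (n / D + 1) * ρ + n / D * ρ) := by
          rw [← pow_mul, ← pow_mul, ← pow_add, ← pow_add]
      _ ≤ 2 ^ (4 * (n / D) * ρ) := by
          apply Nat.pow_le_pow_right (by norm_num)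
          nlinarith
  have hexp : (8 * (n / (32 * N)) + 1) + (n / D) * (4 * ρ + 1) ≤ n / N := by
    rw [Nat.le_div_iff_mul_le hN]
    have h1 : 32 * N * (n / (32 * N)) ≤ n := Nat.mul_div_le n (32 * N)
    have h2 : D * (n / D) ≤ n := Nat.mul_div_le n D
    have h3 : E * (n / D) ≤ D * (n / D) := Nat.mul_le_mul_right _ (by omega)
    have h4 : 4 * (((8 * (n / (32 * N)) + 1) + (n / D) * (4 * ρ + 1)) * N) ≤
        32 * N * (n / (32 * N)) + E * (n / D) := by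
      rw [hE]
      have h5 : N * 1 ≤ N * (n / D) := Nat.mul_le_mul_left _ hnD
      nlinarith
    omega
  have hKbig : 2 ^ n ≤ 2 ^ (n / N) * B.K.card := by
    calc 2 ^ n ≤ 2 ^ (8 * (n / (32 * N)) + 1) * C'.card := hCc
      _ ≤ 2 ^ (8 * (n / (32 * N)) + 1) * (2 ^ (n / D) * G.card) := Nat.mul_le_mul_left _ hneg
      _ ≤ 2 ^ (8 * (n / (32 * N)) + 1) *
          (2 ^ (n / D) * (2 ^ (4 * (n / D) * ρ) * B.K.card)) := by
          apply Nat.mul_le_mul_left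
          apply Nat.mul_le_mul_left
          exact hB1.trans (Nat.mul_le_mul_right _ hcard)
      _ = 2 ^ ((8 * (n / (32 * N)) + 1) + (n / D) * (4 * ρ + 1)) * B.K.card := by
          rw [← mul_assoc, ← mul_assoc, ← pow_add, ← pow_add]
          congr 2
          ring
      _ ≤ 2 ^ (n / N) * B.K.card :=
          Nat.mul_le_mul_right _ (Nat.pow_le_pow_right (by norm_num) hexp)
  obtain ⟨a, b, g, ha, hb, hga, hgb, ⟨R⟩⟩ := hmain n (by omega) (2 * s) hs2 B hKbig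
  have hKC : B.K ⊆ CG (2 * h) T := by
    intro x hx
    exact hPf x (hB2 x hx)
  rcases norect_rect (CG (2 * h) T) B.K hKC hCR R with h' | h'
  · have h1 : 2 ^ (a - g) ≤ R.X.card := pow_sub_le (by clear * - hga; omega) R.nX
    have h4 : 2 ^ (n / (2 * Q)) ≤ 2 ^ (a - g) :=
      Nat.pow_le_pow_right (by norm_num) (log_le hQ ha hga)
    exact absurd h' (not_lt.2 (h4.trans h1))
  · have h1 : 2 ^ (b - g) ≤ R.Y.card := pow_sub_le (by clear * - hgb; omega) R.nY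
    have h4 : 2 ^ (n / (2 * Q)) ≤ 2 ^ (b - g) :=
      Nat.pow_le_pow_right (by norm_num) (log_le hQ hb hgb)
    exact absurd h' (not_lt.2 (h4.trans h1))

end Pool.Agent.V8H51.TN
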